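import Pool.Agent.W96.CL.Stm

/-!
# The relation between the two normalizations
-/

set_option autoImplicit false

open Polynomial Filter Topology

namespace W96CL

namespace NormAux

lemma sin_add_pi (θ : ℝ) :
    Real.sin (Real.pi / 3 + θ) = Real.sqrt 3 / 2 * Real.cos θ + 1 / 2 * Real.sin θ := by
  rw [Real.sin_add, Real.sin_pi_div_three, Real.cos_pi_div_three]

lemma sin_sub_pi (θ : ℝ) :
    Real.sin (Real.pi / 3 - θ) = Real.sqrt 3 / 2 * Real.cos θ - 1 / 2 * Real.sin θ := by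
  rw [Real.sin_sub, Real.sin_pi_div_three, Real.cos_pi_div_three]

lemma exp_eq (θ : ℝ) : Complex.exp (θ * Complex.I) = ⟨Real.cos θ, Real.sin θ⟩ := by
  apply Complex.ext
  · rw [Complex.exp_ofReal_mul_I_re]
  · rw [Complex.exp_ofReal_mul_I_im]

lemma exp_inv_eq (θ : ℝ) : (Complex.exp (θ * Complex.I))⁻¹ = ⟨Real.cos θ, -Real.sin θ⟩ := by
  rw [← Complex.exp_neg]
  have : -((θ : ℂ) * Complex.I) = ((-θ : ℝ) : ℂ) * Complex.I := by push_cast; ring
  rw [this, exp_eq, Real.cos_neg, Real.sin_neg]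

lemma sqrt3 : Real.sqrt 3 * Real.sqrt 3 = 3 := Real.mul_self_sqrt (by norm_num)

lemma uu_mul : uu * (1 - uu) = 1 := by
  apply Complex.ext
  · simp [uu]
    nlinarith [sqrt3]
  · simp [uu]
    ring

lemma one_add (θ : ℝ) : (1 + uu / Complex.exp (θ * Complex.I) ^ 2) * Complex.exp (θ * Complex.I)
    = (⟨Real.sqrt 3, 1⟩ : ℂ) * ((Real.sin (Real.pi / 3 + θ) : ℝ) : ℂ) := by
  have h0 := Complex.exp_ne_zero (θ * Complex.I)
  have h1 : (1 + uu / Complex.exp (θ * Complex.I) ^ 2) * Complex.exp (θ * Complex.I)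
      = Complex.exp (θ * Complex.I) + uu * (Complex.exp (θ * Complex.I))⁻¹ := by
    field_simp
  rw [h1, exp_inv_eq, exp_eq, sin_add_pi]
  generalize Real.cos θ = c
  generalize Real.sin θ = s
  apply Complex.ext
  · simp [uu]
    linear_combination (-c / 2) * sqrt3
  · simp [uu]
    ring

lemma wF_eq (θ : ℝ) : wF (uu / Complex.exp (θ * Complex.I) ^ 2) * Complex.exp (θ * Complex.I)
    = (⟨Real.sqrt 3, 1⟩ : ℂ) * ((Real.sin (Real.pi / 3 - θ) : ℝ) : ℂ) := by
  have h0 := Complex.exp_ne_zero (θ * Complex.I)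
  have h1 : wF (uu / Complex.exp (θ * Complex.I) ^ 2) * Complex.exp (θ * Complex.I)
      = uu * Complex.exp (θ * Complex.I) + (uu * (1 - uu)) * (Complex.exp (θ * Complex.I))⁻¹ := by
    unfold wF
    field_simp
  rw [h1, uu_mul, one_mul, exp_inv_eq, exp_eq, sin_sub_pi]
  generalize Real.cos θ = c
  generalize Real.sin θ = s
  apply Complex.ext
  · simp [uu]
    linear_combination (-c / 2) * sqrt3
  · simp [uu]
    ring

lemma sin_add_pos {θ : ℝ} (h0 : 0 < θ) (h1 : θ < Real.pi / 3) :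
    0 < Real.sin (Real.pi / 3 + θ) := by
  apply Real.sin_pos_of_pos_of_lt_pi
  · have := Real.pi_pos
    linarith
  · have := Real.pi_pos
    linarith

lemma sin_sub_pos {θ : ℝ} (h0 : 0 < θ) (h1 : θ < Real.pi / 3) :
    0 < Real.sin (Real.pi / 3 - θ) := by
  apply Real.sin_pos_of_pos_of_lt_pi
  · linarith
  · have := Real.pi_pos
    linarith

lemma sin_pos' {θ : ℝ} (h0 : 0 < θ) (h1 : θ < Real.pi / 3) : 0 < Real.sin θ := by
  apply Real.sin_pos_of_pos_of_lt_pi h0
  have := Real.pi_pos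
  linarith

lemma wF_pp {θ : ℝ} (h0 : 0 < θ) (h1 : θ < Real.pi / 3) :
    wF (uu / Complex.exp (θ * Complex.I) ^ 2)
      = (1 + uu / Complex.exp (θ * Complex.I) ^ 2) * ((pp θ : ℝ) : ℂ) := by
  have he := Complex.exp_ne_zero (θ * Complex.I)
  have hs : ((Real.sin (Real.pi / 3 + θ) : ℝ) : ℂ) ≠ 0 := by
    exact_mod_cast (sin_add_pos h0 h1).ne'
  apply mul_right_cancel₀ he
  rw [wF_eq, mul_right_comm, one_add]
  unfold pp
  rw [Complex.ofReal_div, mul_assoc, mul_div_cancel₀ _ hs]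

lemma wT_pp {θ : ℝ} (h0 : 0 < θ) (h1 : θ < Real.pi / 3) :
    wT (uu / Complex.exp (θ * Complex.I) ^ 2)
      = (1 + uu / Complex.exp (θ * Complex.I) ^ 2) * (1 - ((pp θ : ℝ) : ℂ)) := by
  have h : ∀ y : ℂ, wT y = 1 + y - wF y := by
    intro y
    unfold wT wF
    ring
  rw [h, wF_pp h0 h1]
  ring

lemma XX_eq (n : ℕ) {θ : ℝ} (h0 : 0 < θ) (h1 : θ < Real.pi / 3) (i : ℕ) :
    XX (EC n) i (uu / Complex.exp (θ * Complex.I) ^ 2)
      = (1 + uu / Complex.exp (θ * Complex.I) ^ 2) •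
        (pp θ • (1 : Matrix (St n) (St n) ℝ) + (1 - pp θ) • ER n i).map (algebraMap ℝ ℂ) := by
  unfold XX EC
  rw [wF_pp h0 h1, wT_pp h0 h1]
  ext a b
  simp only [Matrix.add_apply, Matrix.smul_apply, Matrix.map_apply, smul_eq_mul, Matrix.one_apply,
    Complex.coe_algebraMap, Complex.ofReal_add, Complex.ofReal_mul, Complex.ofReal_sub,
    Complex.ofReal_one]
  split_ifs <;> simp <;> ring

lemma Lay_eq (n : ℕ) {θ : ℝ} (h0 : 0 < θ) (h1 : θ < Real.pi / 3) (m : ℕ) : ∀ i : ℕ,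
    Lay (EC n) (uu / Complex.exp (θ * Complex.I) ^ 2) i m =
    ((1 + uu / Complex.exp (θ * Complex.I) ^ 2) ^ m) •
      (layR n (pp θ) i m).map (algebraMap ℝ ℂ) := by
  induction m with
  | zero =>
    intro i
    unfold Lay layR
    rw [pow_zero, one_smul]
    exact (Matrix.map_one _ (map_zero _) (map_one _)).symm
  | succ m ih =>
    intro i
    rw [Lay, layR, ih (i + 2), XX_eq n h0 h1 i, Matrix.map_mul, smul_mul_smul_comm,
      ← pow_succ' (1 + uu / Complex.exp (θ * Complex.I) ^ 2) m]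

lemma ph_pair (x z : ℂ) (hz : z ≠ 0) :
    ph1 x z * ph1 x z⁻¹ = (1 + (z + z⁻¹) * x + x ^ 2) ^ 2 := by
  unfold ph1
  field_simp
  ring

lemma phL_alt (x z : ℂ) (hz : z ≠ 0) (n : ℕ) :
    phL x (alt z n) = (1 + (z + z⁻¹) * x + x ^ 2) ^ (2 * n) := by
  induction n with
  | zero => simp [phL, alt]
  | succ n ih =>
    have h : phL x (alt z (n + 1)) = ph1 x z * (ph1 x z⁻¹ * phL x (alt z n)) := by
      simp [phL, alt]
    rw [h, ih, ← mul_assoc, ph_pair x z hz]
    ring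

end NormAux

open NormAux in
theorem cl_norm : S_norm := by
  intro n θ h0 h1
  have hp := sin_add_pos h0 h1
  have hm := sin_sub_pos h0 h1
  refine ⟨div_pos hm hp, ?_, ?_, fun i m => Lay_eq n h0 h1 m i, fun x => ?_⟩
  · unfold pp
    rw [div_lt_one hp, sin_add_pi, sin_sub_pi]
    have := sin_pos' h0 h1
    linarith
  · intro h
    have h2 := one_add θ
    rw [h, zero_mul] at h2
    have h3 := congrArg Complex.im h2
    simp only [Complex.zero_im, Complex.mul_im, Complex.ofReal_re, Complex.ofReal_im] at h3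
    linarith
  · rw [phL_alt x _ (Complex.exp_ne_zero _)]
    unfold phi
    simp only [map_pow, map_add, map_mul, aeval_C, aeval_X, map_one]
    congr 3
    rw [exp_inv_eq, exp_eq]
    congr 1
    generalize Real.cos θ = c
    generalize Real.sin θ = s
    apply Complex.ext
    · simp
      ring
    · simp

end W96CL
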